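import Pool.Agent.Helper681_winC.Win

namespace Helper681C

open Finset Helper681

/-- the four colours are pairwise distinct -/
def Rb4 {κ : Type*} (u v w x : κ) : Prop :=
  u ≠ v ∧ u ≠ w ∧ u ≠ x ∧ v ≠ w ∧ v ≠ x ∧ w ≠ x

/-- the shape of the forbidden quadruples -/
def Shape (i : ℕ) (p : ℕ × ℕ × ℕ) (s r : ℕ) : Prop :=
  (p = (4 * s, 4 * (s + r), 4 * (s + 2 * r)) ∧ (i = s + 3 * r ∨ i = s + 4 * r ∨ i = s + 5 * r)) ∨
    (i = s ∧ ((4 * r ≤ s ∧ p = (4 * (s - 4 * r), 4 * (s - 2 * r), 4 * (s - r))) ∨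
      (5 * r ≤ s ∧ p = (4 * (s - 5 * r), 4 * (s - 2 * r), 4 * (s - r)))))

instance (i : ℕ) (p : ℕ × ℕ × ℕ) (s r : ℕ) : Decidable (Shape i p s r) := by
  unfold Shape; infer_instance

theorem pats_shape_chk : (List.range 13).all (fun i => (pats i).all fun p =>
    (List.range 13).any fun s => (List.range 5).any fun r =>
      decide (0 < r) && decide (Shape i p s r)) = true := by
  decide +kernel

theorem pats_shape (i : ℕ) (hi : i < 13) (p : ℕ × ℕ × ℕ) (hp : p ∈ pats i) :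
    ∃ s < 13, ∃ r < 5, 0 < r ∧ Shape i p s r := by
  have h := pats_shape_chk
  rw [List.all_eq_true] at h
  have h1 := h i (List.mem_range.mpr hi)
  rw [List.all_eq_true] at h1
  have h2 := h1 p hp
  rw [List.any_eq_true] at h2
  obtain ⟨s, hs, h3⟩ := h2
  rw [List.any_eq_true] at h3
  obtain ⟨r, hr, h4⟩ := h3
  rw [Bool.and_eq_true, decide_eq_true_iff, decide_eq_true_iff] at h4
  exact ⟨s, List.mem_range.mp hs, r, List.mem_range.mp hr, h4.1, h4.2⟩

theorem window {κ : Type*} [DecidableEq κ] (g : ℕ → κ)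
    (h : ∀ s < 13, ∀ r < 5, 0 < r →
      ¬ Rb4 (g s) (g (s + r)) (g (s + 2 * r)) (g (s + 3 * r)) ∧
      ¬ Rb4 (g s) (g (s + r)) (g (s + 2 * r)) (g (s + 4 * r)) ∧
      ¬ Rb4 (g s) (g (s + r)) (g (s + 2 * r)) (g (s + 5 * r)) ∧
      (4 * r ≤ s → ¬ Rb4 (g s) (g (s - r)) (g (s - 2 * r)) (g (s - 4 * r))) ∧
      (5 * r ≤ s → ¬ Rb4 (g s) (g (s - r)) (g (s - 2 * r)) (g (s - 5 * r)))) :
    TT Lw Qw 13 g ≤ -52260 := by
  rw [← TT_canon]
  set f := canon g with hf
  have hself : ∀ k, f k ≤ k := fun k => canon_le_self g k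
  have h16 : ∀ k < 13, f k < 16 := fun k hk => by have := hself k; omega
  have hcan : ∀ k, f k ≤ nbs f k := fun k => canon_le g k
  have hiff : ∀ i j, f i = f j ↔ g i = g j := canon_iff g
  have hok : ∀ i, i < 13 → okAt (labs f i) (f i) (pats i) := by
    intro i hi p hp hcon
    obtain ⟨s, hs, r, hr, hr0, hcase⟩ := pats_shape i hi p hp
    obtain ⟨a1, a2, a3, a4, a5⟩ := h s hs r hr hr0
    have hl : ∀ a < i, lbl (labs f i) (4 * a) = f a := fun a ha =>
      lbl_labs f i (fun k hk => h16 k (by omega)) a ha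
    rcases hcase with ⟨rfl, hi'⟩ | ⟨rfl, hcase⟩
    · simp only at hcon
      rw [hl s (by omega), hl (s + r) (by omega), hl (s + 2 * r) (by omega)] at hcon
      simp only [ne_eq, hiff] at hcon
      obtain ⟨b1, b2, b3, b4, b5, b6⟩ := hcon
      rcases hi' with rfl | rfl | rfl
      · exact a1 ⟨b1, b2, b4, b3, b5, b6⟩
      · exact a2 ⟨b1, b2, b4, b3, b5, b6⟩
      · exact a3 ⟨b1, b2, b4, b3, b5, b6⟩
    · rcases hcase with ⟨hle, rfl⟩ | ⟨hle, rfl⟩
      · simp only at hcon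
        rw [hl (i - 4 * r) (by omega), hl (i - 2 * r) (by omega), hl (i - r) (by omega)] at hcon
        simp only [ne_eq, hiff] at hcon
        obtain ⟨b1, b2, b3, b4, b5, b6⟩ := hcon
        exact a4 hle ⟨Ne.symm b6, Ne.symm b5, Ne.symm b4, Ne.symm b3, Ne.symm b2, Ne.symm b1⟩
      · simp only at hcon
        rw [hl (i - 5 * r) (by omega), hl (i - 2 * r) (by omega), hl (i - r) (by omega)] at hcon
        simp only [ne_eq, hiff] at hcon
        obtain ⟨b1, b2, b3, b4, b5, b6⟩ := hcon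
        exact a5 hle ⟨Ne.symm b6, Ne.symm b5, Ne.symm b4, Ne.symm b3, Ne.symm b2, Ne.symm b1⟩
  have h0 : f 0 = 0 := by have := hself 0; omega
  have s0 : labs f 1 = 0 := by simp [labs, h0]
  have s1 : nbs f 1 = 1 := by simp [nbs, h0]
  have s2 : WW linP row f 1 = linP := by simp [WW]
  have s3 : nn f 1 = 0 := by simp [nn, cc]
  have s4 : ac linP row f 1 = 0 := by simp [ac]
  have s5 : of 4001 1995 f 1 = 0 := by simp [of, cc]
  have r1 := run_all (labs f 7 % 151) (Nat.mod_lt _ (by norm_num))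
  rw [D1_eq] at r1
  have r2 := check_spec 4001 1995 linP row pats f _ 6 1 (fun k hk => h16 k (by omega))
    (fun k _ => hcan k) (fun j _ hj => hok j (by omega))
    (by rw [s0, s1, s2, s3, s4, s5]; exact r1)
  have r3 := split_spec 151 _ _ _ _ _ _ _ _ r2
  rw [D2_eq] at r3
  have r4 := check_spec 4001 1995 linP row pats f _ 5 7 (fun k hk => h16 k (by omega))
    (fun k _ => hcan k) (fun j _ hj => hok j (by omega)) r3
  rw [DL_eq] at r4
  have r5 := last_spec 4001 1995 linP row pats f 52260 12 (fun k hk => h16 k (by omega))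
    (hcan 12) (hok 12 (by omega)) r4
  have r6 := ac_of 4001 1995 linP row f lin_bd row_bd 13 (by decide)
  have r7 : TT Lw Qw 13 f = (ac linP row f 13 : ℤ) - of 4001 1995 f 13 := by
    rw [r6]; rfl
  rw [r7]
  have r8 : ((ac linP row f 13 + 52260 : ℕ) : ℤ) ≤ (of 4001 1995 f 13 : ℕ) := by
    exact_mod_cast r5
  push_cast at r8
  linarith

theorem TT_le {κ : Type*} [DecidableEq κ] (g : ℕ → κ) : TT Lw Qw 13 g ≤ 5732493 := by
  have hL : ∀ a i, Lw a i ≤ 4001 := by
    intro a i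
    unfold Lw
    have := lin_bd (tri i + a)
    omega
  have hQ : ∀ a' i' a i, Qw a' i' a i ≤ 1995 := by
    intro a' i' a i
    unfold Qw vq
    have := row_bd i' a' (tri i - tri (i' + 1) + a)
    omega
  calc TT Lw Qw 13 g ≤ ∑ i ∈ range 13, ∑ a ∈ range i,
        (4001 + ∑ i' ∈ range i, ∑ a' ∈ range i', (1995 : ℤ)) := by
        unfold TT
        refine sum_le_sum fun i _ => sum_le_sum fun a _ => ?_
        have hpos : (0 : ℤ) ≤ ∑ i' ∈ range i, ∑ a' ∈ range i', (1995 : ℤ) :=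
          sum_nonneg fun _ _ => sum_nonneg fun _ _ => by norm_num
        split_ifs
        · refine add_le_add (hL _ _) (sum_le_sum fun i' _ => sum_le_sum fun a' _ => ?_)
          split_ifs
          · exact hQ _ _ _ _
          · norm_num
        · linarith
    _ = 5732493 := by decide +kernel

end Helper681C
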