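import Pool.Agent.Helper681_win.Check
import Pool.Agent.Helper681_winC.Data

namespace Helper681C
open Helper681
set_option maxRecDepth 100000

theorem run5 : check 4001 1995 (split 151 5 (check 4001 1995 (last 52260 4001 1995 DL) D2))
    D1 1 0 1 linP 0 0 0 = true := by decide +kernel

theorem run6 : check 4001 1995 (split 151 6 (check 4001 1995 (last 52260 4001 1995 DL) D2))
    D1 1 0 1 linP 0 0 0 = true := by decide +kernel

theorem run7 : check 4001 1995 (split 151 7 (check 4001 1995 (last 52260 4001 1995 DL) D2))
    D1 1 0 1 linP 0 0 0 = true := by decide +kernel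

theorem run8 : check 4001 1995 (split 151 8 (check 4001 1995 (last 52260 4001 1995 DL) D2))
    D1 1 0 1 linP 0 0 0 = true := by decide +kernel

theorem run9 : check 4001 1995 (split 151 9 (check 4001 1995 (last 52260 4001 1995 DL) D2))
    D1 1 0 1 linP 0 0 0 = true := by decide +kernel

end Helper681C
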