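import Pool.Agent.Helper681_win.Check
import Pool.Agent.Helper681_winC.Data
import Pool.Agent.Helper681_winC.R11

namespace Helper681C
open Helper681
set_option maxRecDepth 100000

theorem run70 : check 4001 1995 (split 151 70 (check 4001 1995 (last 52260 4001 1995 DL) D2))
    D1 1 0 1 linP 0 0 0 = true := by decide +kernel

theorem run71 : check 4001 1995 (split 151 71 (check 4001 1995 (last 52260 4001 1995 DL) D2))
    D1 1 0 1 linP 0 0 0 = true := by decide +kernel

theorem run72 : check 4001 1995 (split 151 72 (check 4001 1995 (last 52260 4001 1995 DL) D2))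
    D1 1 0 1 linP 0 0 0 = true := by decide +kernel

theorem run73 : check 4001 1995 (split 151 73 (check 4001 1995 (last 52260 4001 1995 DL) D2))
    D1 1 0 1 linP 0 0 0 = true := by decide +kernel

theorem run74 : check 4001 1995 (split 151 74 (check 4001 1995 (last 52260 4001 1995 DL) D2))
    D1 1 0 1 linP 0 0 0 = true := by decide +kernel

end Helper681C
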