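import Mathlib.Tactic.IntervalCases
import Pool.Agent.Helper681_winC.R0
import Pool.Agent.Helper681_winC.R1
import Pool.Agent.Helper681_winC.R2
import Pool.Agent.Helper681_winC.R3
import Pool.Agent.Helper681_winC.R4
import Pool.Agent.Helper681_winC.R5
import Pool.Agent.Helper681_winC.R6
import Pool.Agent.Helper681_winC.R7
import Pool.Agent.Helper681_winC.R8
import Pool.Agent.Helper681_winC.R9
import Pool.Agent.Helper681_winC.R10
import Pool.Agent.Helper681_winC.R11
import Pool.Agent.Helper681_winC.R12
import Pool.Agent.Helper681_winC.R13
import Pool.Agent.Helper681_winC.R14
import Pool.Agent.Helper681_winC.R15
import Pool.Agent.Helper681_winC.R16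
import Pool.Agent.Helper681_winC.R17
import Pool.Agent.Helper681_winC.R18
import Pool.Agent.Helper681_winC.R19
import Pool.Agent.Helper681_winC.R20
import Pool.Agent.Helper681_winC.R21
import Pool.Agent.Helper681_winC.R22
import Pool.Agent.Helper681_winC.R23
import Pool.Agent.Helper681_winC.R24
import Pool.Agent.Helper681_winC.R25
import Pool.Agent.Helper681_winC.R26
import Pool.Agent.Helper681_winC.R27
import Pool.Agent.Helper681_winC.R28
import Pool.Agent.Helper681_winC.R29
import Pool.Agent.Helper681_winC.R30

namespace Helper681C
open Helper681

set_option maxRecDepth 4000 in
theorem run_all (j : Nat) (hj : j < 151) :
    check 4001 1995 (split 151 j (check 4001 1995 (last 52260 4001 1995 DL) D2))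
      D1 1 0 1 linP 0 0 0 = true := by
  interval_cases j
  · exact run0
  · exact run1
  · exact run2
  · exact run3
  · exact run4
  · exact run5
  · exact run6
  · exact run7
  · exact run8
  · exact run9
  · exact run10
  · exact run11
  · exact run12
  · exact run13
  · exact run14
  · exact run15
  · exact run16
  · exact run17
  · exact run18
  · exact run19
  · exact run20
  · exact run21
  · exact run22
  · exact run23
  · exact run24
  · exact run25
  · exact run26
  · exact run27
  · exact run28
  · exact run29
  · exact run30
  · exact run31
  · exact run32
  · exact run33
  · exact run34
  · exact run35
  · exact run36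
  · exact run37
  · exact run38
  · exact run39
  · exact run40
  · exact run41
  · exact run42
  · exact run43
  · exact run44
  · exact run45
  · exact run46
  · exact run47
  · exact run48
  · exact run49
  · exact run50
  · exact run51
  · exact run52
  · exact run53
  · exact run54
  · exact run55
  · exact run56
  · exact run57
  · exact run58
  · exact run59
  · exact run60
  · exact run61
  · exact run62
  · exact run63
  · exact run64
  · exact run65
  · exact run66
  · exact run67
  · exact run68
  · exact run69
  · exact run70
  · exact run71
  · exact run72
  · exact run73
  · exact run74
  · exact run75
  · exact run76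
  · exact run77
  · exact run78
  · exact run79
  · exact run80
  · exact run81
  · exact run82
  · exact run83
  · exact run84
  · exact run85
  · exact run86
  · exact run87
  · exact run88
  · exact run89
  · exact run90
  · exact run91
  · exact run92
  · exact run93
  · exact run94
  · exact run95
  · exact run96
  · exact run97
  · exact run98
  · exact run99
  · exact run100
  · exact run101
  · exact run102
  · exact run103
  · exact run104
  · exact run105
  · exact run106
  · exact run107
  · exact run108
  · exact run109
  · exact run110
  · exact run111
  · exact run112
  · exact run113
  · exact run114
  · exact run115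
  · exact run116
  · exact run117
  · exact run118
  · exact run119
  · exact run120
  · exact run121
  · exact run122
  · exact run123
  · exact run124
  · exact run125
  · exact run126
  · exact run127
  · exact run128
  · exact run129
  · exact run130
  · exact run131
  · exact run132
  · exact run133
  · exact run134
  · exact run135
  · exact run136
  · exact run137
  · exact run138
  · exact run139
  · exact run140
  · exact run141
  · exact run142
  · exact run143
  · exact run144
  · exact run145
  · exact run146
  · exact run147
  · exact run148
  · exact run149
  · exact run150

end Helper681C
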