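import Pool.Agent.Helper681_winC.RunAll
import Pool.Agent.Helper681_win.Run
import Pool.Agent.Helper681_win.Canon
import Pool.Agent.Helper681_win.Code

namespace Helper681C

open Finset Helper681

/-- all levels -/
def allD : List (List (ℕ × ℕ × ℕ) × List (ℕ × ℕ × ℕ)) := D1 ++ (D2 ++ [DL])

def row (i a : ℕ) : ℕ := ((((allD.getD (i - 1) ([], [])).2).getD a (0, 0, 0)).2).2

def pats (i : ℕ) : List (ℕ × ℕ × ℕ) := (allD.getD (i - 1) ([], [])).1

theorem D1_eq : D1 = (List.range' 1 6).map (datF row pats) := by decide +kernel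
theorem D2_eq : D2 = (List.range' 7 5).map (datF row pats) := by decide +kernel
theorem DL_eq : DL = datF row pats 12 := by decide +kernel

/-- test that all fields are at most `M` -/
def bdb (M W : ℕ) : Bool :=
  (List.range 100).all (fun j => Nat.ble (fld W j) M) && Nat.blt W (Nat.pow 2 2000)

theorem bdb_spec {M W : ℕ} (h : bdb M W = true) : Bd M W := by
  unfold bdb at h
  rw [Bool.and_eq_true, List.all_eq_true] at h
  intro j
  by_cases hj : j < 100
  · exact Nat.le_of_ble_eq_true (h.1 j (List.mem_range.mpr hj))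
  · have h2 : W < 2 ^ 2000 := by
      have := h.2
      rwa [Nat.blt_eq] at this
    have h3 : W < 2 ^ (20 * j) := h2.trans_le (Nat.pow_le_pow_right (by norm_num) (by omega))
    unfold fld
    rw [Nat.shiftRight_eq_div_pow, Nat.div_eq_of_lt h3]
    simp

theorem lin_bd : Bd 8002 linP := bdb_spec (by decide +kernel)

theorem rows_chk : allD.all (fun d => d.2.all fun r => bdb 3990 r.2.2) = true := by decide +kernel

theorem getD_or {α : Type*} (l : List α) (n : ℕ) (d : α) : l.getD n d ∈ l ∨ l.getD n d = d := by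
  rw [List.getD_eq_getElem?_getD]
  cases h : l[n]? with
  | none => right; rfl
  | some x => left; exact List.mem_of_getElem? h

theorem row_bd (i a : ℕ) : Bd 3990 (row i a) := by
  unfold row
  have h := rows_chk
  rw [List.all_eq_true] at h
  rcases getD_or allD (i - 1) ([], []) with h1 | h1
  · have h2 := h _ h1
    rw [List.all_eq_true] at h2
    rcases getD_or (allD.getD (i - 1) ([], [])).2 a (0, 0, 0) with h3 | h3
    · exact bdb_spec (h2 _ h3)
    · rw [h3]; intro j; simp [fld]
  · rw [h1]
    intro j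
    simp [fld]

/-- pair weights -/
def Lw (a i : ℕ) : ℤ := (fld linP (tri i + a) : ℤ) - 4001
/-- weights of pairs of pairs -/
def vq (a' i' a i : ℕ) : ℕ := fld (row i' a') (tri i - tri (i' + 1) + a)
def Qw (a' i' a i : ℕ) : ℤ := (vq a' i' a i : ℤ) - 1995

theorem sumL : ∑ i ∈ range 13, ∑ a ∈ range i, Lw a i = -207480 := by decide +kernel

theorem quad_chk : accum (fun e : ℕ × ℕ × ℕ × ℕ => code e.1 e.2.1 e.2.2.1 e.2.2.2)
      (fun e => vq e.1 e.2.1 e.2.2.1 e.2.2.2) 1995 24 (ents 13) 0 0 0 0 = true := by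
  decide +kernel

end Helper681C
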